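import Pool.Agent.H2.GEN.ChT
import Pool.Agent.H31.W1.H80.GEN.Chn
import Pool.Agent.H3.W.Nlp

/-!
# Thresholds of chains of labels

`Cht θ l k K a w P`: a chain of two-sided labels of the coordinates in the list `l` and of the target
`k`, on radii and windows which may be larger than `2 ^ (-a)` and `2 ^ (-w)`, with arbitrary sides;
one digit of the radius counts for one digit of the precision of the target; the exponents of the
gradients are less than `θ w`. These are labels with the slope law and the trivial labels in every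
class (`chsys`), so that every class has a subclass with thresholds for all the lists at once
(`thr_chsys`), which have the properties in `ChThr` along every chain (`chThr_of`).
-/

set_option autoImplicit false

namespace Pool.W.CHT

open Pool.CHT

open Finset Real MvPolynomial
open Pool.Agent.H49.Ent Pool.Agent.H32.Dense Pool.STK Pool.KA Pool.KSAT Pool.K2S Pool.PB Pool.S6C
open Pool.GEN
open Pool.LBT (LSys Slo Tri ThrOf)
open Pool.LEV (Law)

variable {m J : ℕ}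

/-! ### Other lists -/


theorem nlp_congr {g g' : ℕ → ℕ} {l i : ℕ} (h : ∀ j ≤ i, g j = g' j) : Pool.W.GEN.nlp g l i = Pool.W.GEN.nlp g' l i := by
  unfold Pool.W.GEN.nlp
  rw [h i le_rfl, Finset.sup_congr rfl fun j hj => h j (by
    have := Finset.mem_range.1 hj
    omega)]

/-- Only the first coordinates matter. -/
theorem ChN.congr {F : Pool.KA.Fam m J} {c c' : ℕ → Fin m} {r : ℕ} {K : ℕ → ℕ} {a w e : ℕ} {g g' : ℕ → ℕ}
    {A : F.Ω → Prop} (h : Pool.W.GEN.ChN F c r K a w e g A) (hc : ∀ l < r, c l = c' l)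
    (hg : ∀ l < r, g l = g' l) : Pool.W.GEN.ChN F c' r K a w e g' A := by
  obtain ⟨G, H, h⟩ := h
  have d0 : ∀ i : ℕ, Pool.GEN.DepC c' i (0 : MvPolynomial (Option (Fin m)) ℝ) := by
    intro i b b' _ _
    rw [map_zero, map_zero]
  have hb : ∀ {y : Pool.GEN.PtT F} {t : ℝ} {i : ℕ} {b : Option (Fin m) → ℝ}, i < r →
      Pool.GEN.NBx c' (fun l => if l < r then G y l else 0) g' a t i b → Pool.GEN.NBx c (G y) g a t i b := by
    intro y t i b hi hb
    refine ⟨hb.1, fun l hl => ?_⟩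
    have h1 := hb.2 l hl
    simp only [if_pos (hl.trans hi)] at h1
    rw [hc l (hl.trans hi), hg l (hl.trans hi)]
    exact h1
  refine ⟨fun y i => if i < r then G y i else 0, fun s i => if i < r then H s i else 0,
    fun y i => ?_, fun s i => ?_, fun y i => ?_, fun s i => ?_, fun ω hω i hi => ?_,
    fun ω hω i hi b hbx => ?_, fun ω hω i hi b hbx l hl => ?_⟩
  · split_ifs with hi
    · exact h.degG y i
    · rw [totalDegree_zero]
      exact Nat.zero_le _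
  · split_ifs with hi
    · exact h.degH s i
    · rw [totalDegree_zero]
      exact Nat.zero_le _
  · split_ifs with hi
    · exact Pool.CHT.DepC.congr (h.depG y i) fun l hl => hc l (hl.trans hi)
    · exact d0 i
  · split_ifs with hi
    · exact Pool.CHT.DepC.congr (h.depH s i) fun l hl => hc l (hl.trans hi)
    · exact d0 i
  · rw [if_pos hi, ← hc i hi, ← hg i hi]
    exact h.pos ω hω i hi
  · rw [if_pos hi, if_pos hi, ← hg i hi]
    exact h.agr ω hω i hi b (hb hi hbx)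
  · rw [if_pos hi, ← hc l (hl.trans hi),
      ← Pool.W.CHT.nlp_congr (l := l) (g := g) (g' := g') fun j hj => hg j (hj.trans_lt hi)]
    exact h.lip ω hω i hi b (hb hi hbx) l hl

/-! ### The labels -/


/-- **Chain labels** of the target `k` over the base `l`, with arbitrary sides, on larger radii and
windows. -/
def Cht (θ : ℝ) (l : List (Fin m)) (k : Fin m) (K a w P : ℕ) : Pool.K2S.Stat m := fun J F A =>
  ∃ (a₀ w₀ : ℕ) (g : ℕ → ℕ), w₀ ≤ a₀ ∧ a₀ ≤ a ∧ w₀ ≤ w ∧ P + a₀ ≤ g l.length + a ∧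
    (∀ j ≤ l.length, g j ≤ J) ∧
    Pool.W.GEN.ChN F (fun j => l.getD j k) (l.length + 1) (fun _ => K) a₀ w₀ (Pool.CHT.lipE θ K w J) g A

theorem Cht.her (θ : ℝ) (l : List (Fin m)) (k : Fin m) (K a w P J : ℕ) (F : Pool.KA.Fam m J) :
    Pool.K2S.Hered (Pool.W.CHT.Cht θ l k K a w P J F) := by
  rintro A B hB ⟨a₀, w₀, g, h1, h2, h3, h4, h5, h⟩
  exact ⟨a₀, w₀, g, h1, h2, h3, h4, h5, Pool.W.GEN.ChN.hered F _ _ _ _ _ _ _ A B hB h⟩

theorem Cht.anti {θ : ℝ} {l : List (Fin m)} {k : Fin m} {K a w P P' : ℕ} {F : Pool.KA.Fam m J}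
    {A : F.Ω → Prop} (hP : P' ≤ P) (h : Pool.W.CHT.Cht θ l k K a w P J F A) :
    Pool.W.CHT.Cht θ l k K a w P' J F A := by
  obtain ⟨a₀, w₀, g, h1, h2, h3, h4, h5, h⟩ := h
  exact ⟨a₀, w₀, g, h1, h2, h3, by omega, h5, h⟩

theorem Cht.mono {θ : ℝ} {l : List (Fin m)} {k : Fin m} {K K' a a' w w' P : ℕ}
    {F : Pool.KA.Fam m J} {A : F.Ω → Prop} (hK : K ≤ K') (ha : a ≤ a') (hw : w ≤ w')
    (h : Pool.W.CHT.Cht θ l k K a w P J F A) : Pool.W.CHT.Cht θ l k K' a' w' P J F A := by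
  obtain ⟨a₀, w₀, g, h1, h2, h3, h4, h5, G, H, h⟩ := h
  exact ⟨a₀, w₀, g, h1, h2.trans ha, h3.trans hw, by omega, h5, G, H,
    h.mono le_rfl (fun _ => hK) le_rfl (Pool.CHT.lipE_mono hK hw)⟩

/-- **The slope**. -/
theorem Cht.slope {θ : ℝ} {l : List (Fin m)} {k : Fin m} {K a w P v : ℕ} {F : Pool.KA.Fam m J}
    {A : F.Ω → Prop} (h : Pool.W.CHT.Cht θ l k K a w P J F A) : Pool.W.CHT.Cht θ l k K (a + v) w (P + v) J F A := by
  obtain ⟨a₀, w₀, g, h1, h2, h3, h4, h5, h⟩ := h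
  exact ⟨a₀, w₀, g, h1, by omega, h3, by omega, h5, h⟩

/-- A chain is a label of its last coordinate, for every list. -/
theorem Cht.of_chN {θ : ℝ} {c : ℕ → Fin m} {i : ℕ} {K : ℕ → ℕ} {K₀ a w a₀ w₀ e P : ℕ}
    {g : ℕ → ℕ} {F : Pool.KA.Fam m J} {A : F.Ω → Prop} (h : Pool.W.GEN.ChN F c (i + 1) K a₀ w₀ e g A) (hwa : w₀ ≤ a₀)
    (ha : a₀ ≤ a) (hw : w₀ ≤ w) (hP : P + a₀ ≤ g i + a) (hK : ∀ l < i + 1, K l ≤ K₀)
    (he : e ≤ Pool.CHT.lipE θ K₀ w J) (hg : ∀ l ≤ i, g l ≤ J) :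
    Pool.W.CHT.Cht θ ((List.range i).map c) (c i) K₀ a w P J F A := by
  have hlen : ((List.range i).map c).length = i := by simp
  refine ⟨a₀, w₀, g, hwa, ha, hw, ?_, ?_, ?_⟩
  · rw [hlen]
    exact hP
  · rw [hlen]
    exact hg
  · rw [hlen]
    obtain ⟨G, H, h1⟩ := h.cls (K' := fun _ => K₀) hK
    refine Pool.W.CHT.ChN.congr ⟨G, H, h1.mono le_rfl (fun _ => le_rfl) le_rfl he⟩ (fun l hl => ?_)
      fun _ _ => rfl
    rcases Nat.lt_or_ge l i with h2 | h2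
    · simp [h2]
    · have : l = i := by omega
      subst this
      simp

/-! ### The trivial chains -/


/-- The chains of constant labels. -/
theorem chN_trivial (F : Pool.KA.Fam m J) (c : ℕ → Fin m) (r : ℕ) (K : ℕ → ℕ) (a e : ℕ) {w P : ℕ}
    (hP : P + 1 ≤ w) (hw : w ≤ J) (A : F.Ω → Prop) : Pool.W.GEN.ChN F c r K a w e (fun _ => P) A := by
  have e1 : (1 : ℝ) / 2 ^ J ≤ 1 / 2 ^ (P + 1) := Pool.PB.inv_mono (hP.trans hw)
  have e2 : (1 : ℝ) / 2 ^ w ≤ 1 / 2 ^ (P + 1) := Pool.PB.inv_mono hP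
  have e3 : (1 : ℝ) / 2 ^ (P + 1) = 1 / 2 ^ P / 2 := by rw [pow_succ]; field_simp
  have e4 : (0 : ℝ) < 1 / 2 ^ P := by positivity
  refine ⟨fun y i => C ((y.1 (c i) : ℝ) / 2 ^ J),
    fun s i => C (s.1.1 (c i) + (s.2.2 : ℝ) / 2 ^ w * s.1.2 (c i)), fun y i => ?_, fun s i => ?_,
    fun y i => ?_, fun s i => ?_, fun ω _ i _ => ?_, fun ω _ i _ b _ => ?_,
    fun ω _ i _ b _ l _ => ?_⟩
  · rw [totalDegree_C]; exact Nat.zero_le _
  · rw [totalDegree_C]; exact Nat.zero_le _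
  · intro b b' _ _
    rw [eval_C, eval_C]
  · intro b b' _ _
    rw [eval_C, eval_C]
  · have h1 := Pool.CHT.near_pt F (c i) ω
    rw [eval_C]
    change |F.x ω (c i) - ((F.X J ω (c i) : ℤ) : ℝ) / 2 ^ J| ≤ 1 / 2 ^ P
    linarith
  · have h1 := Pool.CHT.near_pt F (c i) ω
    have h2 := Pool.CHT.near_win F (c i) hw ω
    rw [eval_C, eval_C]
    change |((F.X J ω (c i) : ℤ) : ℝ) / 2 ^ J - F.x1 w ω (c i)| ≤ 1 / 2 ^ P
    rw [abs_le] at h1 h2 ⊢
    constructor <;> linarith [h1.1, h1.2, h2.1, h2.2]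
  · rw [pderiv_C, map_zero, abs_zero]
    positivity

/-! ### The system -/

/-- **The system of the chain labels**: the charts are pairs of a list (the base) and a coordinate
(the target). -/
noncomputable def chsys (m : ℕ) (θ : ℝ) : Pool.LBT.LSys m where
  ι := List (Fin m) × Fin m
  T i := Pool.W.CHT.Cht θ i.1 i.2
  her i K a w P J F := Pool.W.CHT.Cht.her θ i.1 i.2 K a w P J F
  anti h := Pool.W.CHT.Cht.anti h
  mono hK ha hw _ _ h := Pool.W.CHT.Cht.mono hK ha hw h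

instance (θ : ℝ) : Countable (Pool.W.CHT.chsys m θ).ι :=
  inferInstanceAs (Countable (List (Fin m) × Fin m))

theorem slo_chsys (θ : ℝ) (S : Pool.PB.PCl m) : Pool.LBT.Slo (Pool.W.CHT.chsys m θ) S := by
  intro i K
  refine ⟨K, fun w₀ hw₀ η hη => ⟨1, one_pos, 0, fun J _ F A _ a w v P Q _ _ _ _ hQ hT =>
    ⟨A, fun _ h => h, ?_, ?_⟩⟩⟩
  · have h1 : Real.exp (-(η * J)) ≤ 1 := by
      rw [Real.exp_le_one_iff]
      have : 0 ≤ η * (J : ℝ) := by positivity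
      linarith
    calc _ ≤ 1 * Pool.K2S.Pe F.p A := mul_le_mul_of_nonneg_right h1 (Pool.K2S.Pe_nonneg F.isLaw A)
      _ = _ := one_mul _
  · have h1 : Q ≤ P + v := by
      have : (Q : ℝ) ≤ ((P + v : ℕ) : ℝ) := by
        push_cast
        have : 0 ≤ η * (J : ℝ) := by positivity
        linarith
      exact_mod_cast this
    exact Pool.W.CHT.Cht.anti h1 (Pool.W.CHT.Cht.slope hT)

theorem tri_chsys (θ : ℝ) (S : Pool.PB.PCl m) : Pool.LBT.Tri (Pool.W.CHT.chsys m θ) S := by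
  intro i
  refine ⟨0, fun η hη => ⟨1, one_pos, ?_⟩⟩
  obtain ⟨J₁, hJ₁⟩ := exists_nat_ge (1 / η)
  refine ⟨J₁, fun J hJ F A _ w P hw hP => ⟨A, fun _ h => h, ?_, ?_⟩⟩
  · have h1 : Real.exp (-(η * J)) ≤ 1 := by
      rw [Real.exp_le_one_iff]
      have : 0 ≤ η * (J : ℝ) := by positivity
      linarith
    calc _ ≤ 1 * Pool.K2S.Pe F.p A := mul_le_mul_of_nonneg_right h1 (Pool.K2S.Pe_nonneg F.isLaw A)
      _ = _ := one_mul _
  · have hJ' : (J₁ : ℝ) ≤ J := by exact_mod_cast hJ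
    have e1 : 1 / η ≤ J := hJ₁.trans hJ'
    rw [div_le_iff₀ hη] at e1
    have e2 : P + 1 ≤ w := by
      have : ((P + 1 : ℕ) : ℝ) ≤ w := by
        push_cast
        linarith
      exact_mod_cast this
    have e3 : P ≤ J := by omega
    refine ⟨w, w, fun _ => P, le_rfl, le_rfl, le_rfl, le_rfl, fun _ _ => e3, ?_⟩
    exact Pool.W.CHT.chN_trivial F _ _ _ w _ e2 hw A

/-- **The thresholds of the chains** are numbers of a subclass, for all bases and targets at once.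
No property of the class is used. -/
theorem thr_chsys (θ : ℝ) {S : Pool.PB.PCl m} (hS : S.Ne) :
    ∃ (S' : Pool.PB.PCl m) (P : List (Fin m) × Fin m → ℝ → ℝ → ℝ), S'.Ne ∧
      (∀ (τ : ℝ) (J : ℕ) (F : Pool.KA.Fam m J) (A : F.Ω → Prop), S'.St τ J F A → S.St τ J F A) ∧
      Pool.LBT.ThrOf (Pool.W.CHT.chsys m θ) S' P :=
  Pool.LBT.thr (Pool.W.CHT.chsys m θ) S hS (Pool.W.CHT.slo_chsys θ S) (Pool.W.CHT.tri_chsys θ S)

/-! ### The thresholds along a chain -/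


variable {θ : ℝ} {S : Pool.PB.PCl m} {P : List (Fin m) × Fin m → ℝ → ℝ → ℝ}

/-- **No better label**, uniformly: no chain of natural exponents, of the radius and of the window
of the threshold or larger, of any sides, has a better label of its last coordinate. -/
theorem no_unif (hP : Pool.LBT.ThrOf (Pool.W.CHT.chsys m θ) S P) (c : ℕ → Fin m) (i : ℕ) (K : ℕ → ℕ) (a w : ℚ)
    (e h : ℝ) (hw : 0 ≤ w) (hwa : w ≤ a) (ha : a ≤ 1) (he : e < θ * w) (hh : 0 < h)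
    (h1 : Pool.CHT.bet P c i a w + h ≤ 1) :
    Pool.S6C.Bas S (fun J F A => ∀ (a₀ w₀ e₀ : ℕ) (g : ℕ → ℕ), w₀ ≤ a₀ → a₀ ≤ ⌊(a : ℝ) * J⌋₊ →
      w₀ ≤ ⌊(w : ℝ) * J⌋₊ → e₀ ≤ ⌊e * J⌋₊ → (∀ l ≤ i, g l ≤ J) →
      ⌊(Pool.CHT.bet P c i a w + h) * J⌋₊ + a₀ ≤ g i + ⌊(a : ℝ) * J⌋₊ →
      ¬ Pool.W.GEN.ChN F c (i + 1) K a₀ w₀ e₀ g A) := by
  obtain ⟨K₁, J₁, hK₁⟩ := Pool.CHT.le_lipE hw he
  obtain ⟨K₀, hK₀⟩ : ∃ K₀, K₀ = max K₁ ((range (i + 1)).sup K) := ⟨_, rfl⟩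
  refine Pool.S6C.Bas.mono J₁ (hP.no ((List.range i).map c, c i) K₀ a w h hw hwa ha hh h1) ?_
  intro J hJ F A hn a₀ w₀ e₀ g k1 k2 k3 k4 k5 k6 k7
  refine hn ?_
  have hK : ∀ l < i + 1, K l ≤ K₀ := fun l hl => by
    rw [hK₀]
    exact (Finset.le_sup (f := K) (mem_range.2 hl)).trans (le_max_right _ _)
  exact Pool.W.CHT.Cht.of_chN k7 k1 k2 k3 k6 hK (k4.trans (hK₁ K₀ (by
    rw [hK₀]; exact le_max_left _ _) J hJ)) k5

/-- **The thresholds along a chain.** -/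
theorem chThr_of (hP : Pool.LBT.ThrOf (Pool.W.CHT.chsys m θ) S P) (c : ℕ → Fin m) (r : ℕ) :
    Pool.W.GEN.ChThr S c r θ (Pool.CHT.bet P c) where
  low := fun i _ a w h0 h1 h2 => hP.low _ a w h0 h1 h2
  up := fun i _ a w h0 h1 h2 => hP.up _ a w h0 h1 h2
  mono := fun i _ a a' w w' h0 h1 h2 h3 h4 h5 => (hP.law _).mono h0 h1 h2 h3 h4 h5
  slope := fun i _ a w v h0 h1 h2 h3 => (hP.law _).slope a w v h0 h1 h2 h3
  no := by
    intro i _ K a w e h g h0 h1 h2 he hh hb hg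
    refine Pool.S6C.Bas.mono 0 (Pool.W.CHT.no_unif hP c i K a w e h h0 h1 h2 he hh hb) ?_
    intro J _ F A hn hC
    have hJ : (0 : ℝ) ≤ J := Nat.cast_nonneg J
    have hwR : (w : ℝ) ≤ a := by exact_mod_cast h1
    refine hn ⌊(a : ℝ) * J⌋₊ ⌊(w : ℝ) * J⌋₊ ⌊e * J⌋₊ _
      (Nat.floor_le_floor (mul_le_mul_of_nonneg_right hwR hJ)) le_rfl le_rfl le_rfl (fun l hl => ?_)
      ?_ hC
    · show ⌊(if l = i then Pool.CHT.bet P c i a w + h else g l) * J⌋₊ ≤ J
      refine Pool.LBT.fl_le' ?_ J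
      split_ifs with h3
      · exact hb
      · have h4 : l < i := lt_of_le_of_ne hl h3
        have h5 : Pool.CHT.bet P c l a w ≤ 1 := hP.up _ a w (by exact_mod_cast h0) hwR (by exact_mod_cast h2)
        linarith [hg l h4]
    · show _ ≤ ⌊(if i = i then Pool.CHT.bet P c i a w + h else g i) * J⌋₊ + _
      rw [if_pos rfl]

end Pool.W.CHT
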