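import Pool.Agent.H2.GEN.EvS
import Pool.Agent.H31.W1.H62.GEN.JatB

/-!
# Closed balls, mixed thin chains and labels

`EvS`: a closed ball chart at the window `w`, re-centred at several radii, with no relation; at the
radius `w + v` a mixed chain (the re-centred labels for the coordinates in `R`, the thin labels for
the others) with no relation, and a label of the target which is two-sided over its natural boxes.
`ev_win`: in a class, at one window. `ev_con`: finitely many windows with one radius, on one event.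
-/

set_option autoImplicit false

namespace Pool.W.ISO

open Pool.ISO

open Finset Real MvPolynomial
open Pool.Agent.H49.Ent Pool.Agent.H32.Dense Pool.STK Pool.KA Pool.KSAT Pool.K2S Pool.PB Pool.S6C
open Pool.GEN Pool.CHT Pool.CHX
open Pool.LBT (LSys Slo Tri ThrOf fl_le' bas_false)
open Pool.LEV (Law)
open Pool.FLF (Fam.sub)
open Pool.JTN (TgP)

/-- **One closed ball, re-centred; a mixed thin chain; a label of the target.** -/
structure EvS {m J : ℕ} (F : Pool.KA.Fam m J) (c : ℕ → Fin m) (r D Dr w' v M : ℕ) (z : ℕ → ℕ)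
    (e h p : ℕ) (R : ℕ → Prop) (g gc gT g₀ : ℕ → ℕ) (κ : ℝ) (B : F.Ω → Prop)
    (G₀ : Pool.GEN.PtT F → ℕ → MvPolynomial (Option (Fin m)) ℝ)
    (H₀ : Pool.GEN.LnT F → ℕ → MvPolynomial (Option (Fin m)) ℝ)
    (T : Pool.GEN.PtT F → ℕ → MvPolynomial (Option (Fin m)) ℝ)
    (TH : Pool.GEN.LnT F → ℕ → MvPolynomial (Option (Fin m)) ℝ)
    (Gt : Pool.GEN.PtT F → MvPolynomial (Option (Fin m)) ℝ)
    (Ht : Pool.GEN.LnT F → MvPolynomial (Option (Fin m)) ℝ) : Prop where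
  ball : Pool.W.GEN.ChOK F c (r + 1) (fun _ => D) w' w' e g₀ B G₀ H₀
  cls : Pool.ISO.Clsd F (r + 1) w' B G₀ H₀
  relb : Pool.CHT.RelvF F c r w' w' g₀ Dr h κ B G₀
  near : ∀ ω, B ω → ∀ l ≤ r, ∀ b : Option (Fin m) → ℝ,
    |eval b (Pool.GEN.Gno (c l) J J (fun y => G₀ y l) (Pool.PB.ptr F J ω)) - eval b (G₀ (Pool.PB.ptr F J ω) l)| ≤
      2 / 2 ^ g₀ l
  rad : ∀ i ≤ M, Pool.W.GEN.ChOK F c (r + 1) (fun _ => D) (w' + z i) w' e (fun l => g l + z i) B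
    (fun y l => Pool.GEN.Gno (c l) J J (fun y => G₀ y l) y) (fun s l => Pool.GEN.Hno (c l) (fun s => H₀ s l) s)
  top : Pool.W.GEN.ChOK F c (r + 1) (fun _ => D) (w' + v) w' e gc B
    (fun y l => Pool.GEN.Gno (c l) J J (fun y => G₀ y l) y) (fun s l => Pool.GEN.Hno (c l) (fun s => H₀ s l) s)
  gle : ∀ l ≤ r, gc l ≤ g l + v
  thin : Pool.W.GEN.ChOK F c r (fun _ => D) (w' + v) w' e gT B T TH
  relt : Pool.CHT.RelvF F c r (w' + v) w' gT Dr h κ B T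
  rgh : ∀ l < r, R l → gT l = gc l ∧ (∀ y, T y l = Pool.GEN.Gno (c l) J J (fun y => G₀ y l) y) ∧
    ∀ s, TH s l = Pool.GEN.Hno (c l) (fun s => H₀ s l) s
  dG : ∀ y, (Gt y).totalDegree ≤ D
  dH : ∀ s, (Ht s).totalDegree ≤ D
  pG : ∀ y, Pool.GEN.DepC c r (Gt y)
  pH : ∀ s, Pool.GEN.DepC c r (Ht s)
  pos : ∀ ω, B ω → |F.x ω (c r) - eval (Pool.GEN.bt F ω) (Gt (Pool.PB.ptr F J ω))| ≤ 1 / 2 ^ p
  agr : ∀ ω, B ω → ∀ b, Pool.GEN.NBx c (T (Pool.PB.ptr F J ω)) gT (w' + v) (F.t ω) r b →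
    |eval b (Gt (Pool.PB.ptr F J ω)) - eval b (Ht (Pool.KSAT.slam F w' ω))| ≤ 1 / 2 ^ p


/-- Smaller events. -/
theorem EvS.sub {m J : ℕ} {F : Pool.KA.Fam m J} {c : ℕ → Fin m} {r D Dr w' v M : ℕ} {z : ℕ → ℕ}
    {e h p : ℕ} {R : ℕ → Prop} {g gc gT g₀ : ℕ → ℕ} {κ κ₁ κ₂ : ℝ} {B B' : F.Ω → Prop}
    {G₀ : Pool.GEN.PtT F → ℕ → MvPolynomial (Option (Fin m)) ℝ}
    {H₀ : Pool.GEN.LnT F → ℕ → MvPolynomial (Option (Fin m)) ℝ}
    {T : Pool.GEN.PtT F → ℕ → MvPolynomial (Option (Fin m)) ℝ}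
    {TH : Pool.GEN.LnT F → ℕ → MvPolynomial (Option (Fin m)) ℝ}
    {Gt : Pool.GEN.PtT F → MvPolynomial (Option (Fin m)) ℝ}
    {Ht : Pool.GEN.LnT F → MvPolynomial (Option (Fin m)) ℝ}
    (H : Pool.W.ISO.EvS F c r D Dr w' v M z e h p R g gc gT g₀ κ B G₀ H₀ T TH Gt Ht) (hB : Pool.K2S.Sub B' B)
    (hP : κ₁ * Pool.K2S.Pe F.p B ≤ Pool.K2S.Pe F.p B') (h2 : 0 ≤ κ₂) (hκ : κ ≤ κ₂ * κ₁) :
    Pool.W.ISO.EvS F c r D Dr w' v M z e h p R g gc gT g₀ κ₂ B' G₀ H₀ T TH Gt Ht where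
  ball := H.ball.sub hB
  cls := H.cls.sub hB
  relb := H.relb.sub hB hP h2 hκ
  near := fun ω hω => H.near ω (hB ω hω)
  rad := fun i hi => (H.rad i hi).sub hB
  top := H.top.sub hB
  gle := H.gle
  thin := H.thin.sub hB
  relt := H.relt.sub hB hP h2 hκ
  rgh := H.rgh
  dG := H.dG
  dH := H.dH
  pG := H.pG
  pH := H.pH
  pos := fun ω hω => H.pos ω (hB ω hω)
  agr := fun ω hω => H.agr ω (hB ω hω)

/-- Larger exponents. -/
theorem EvS.mono {m J : ℕ} {F : Pool.KA.Fam m J} {c : ℕ → Fin m} {r D Dr w' v M : ℕ} {z : ℕ → ℕ}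
    {e e' h h' p p' : ℕ} {R : ℕ → Prop} {g gc gT g₀ : ℕ → ℕ} {κ : ℝ} {B : F.Ω → Prop}
    {G₀ : Pool.GEN.PtT F → ℕ → MvPolynomial (Option (Fin m)) ℝ}
    {H₀ : Pool.GEN.LnT F → ℕ → MvPolynomial (Option (Fin m)) ℝ}
    {T : Pool.GEN.PtT F → ℕ → MvPolynomial (Option (Fin m)) ℝ}
    {TH : Pool.GEN.LnT F → ℕ → MvPolynomial (Option (Fin m)) ℝ}
    {Gt : Pool.GEN.PtT F → MvPolynomial (Option (Fin m)) ℝ}
    {Ht : Pool.GEN.LnT F → MvPolynomial (Option (Fin m)) ℝ}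
    (H : Pool.W.ISO.EvS F c r D Dr w' v M z e h p R g gc gT g₀ κ B G₀ H₀ T TH Gt Ht) (he : e ≤ e')
    (hh : h ≤ h') (hp : p' ≤ p) :
    Pool.W.ISO.EvS F c r D Dr w' v M z e' h' p' R g gc gT g₀ κ B G₀ H₀ T TH Gt Ht where
  ball := H.ball.mono le_rfl (fun _ => le_rfl) le_rfl he
  cls := H.cls
  relb := Pool.ISO.relvF_exp H.relb hh
  near := H.near
  rad := fun i hi => (H.rad i hi).mono le_rfl (fun _ => le_rfl) le_rfl he
  top := H.top.mono le_rfl (fun _ => le_rfl) le_rfl he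
  gle := H.gle
  thin := H.thin.mono le_rfl (fun _ => le_rfl) le_rfl he
  relt := Pool.ISO.relvF_exp H.relt hh
  rgh := H.rgh
  dG := H.dG
  dH := H.dH
  pG := H.pG
  pH := H.pH
  pos := fun ω hω => (H.pos ω hω).trans (one_div_le_one_div_of_le (by positivity)
    (pow_le_pow_right₀ (by norm_num) hp))
  agr := fun ω hω b hb => (H.agr ω hω b hb).trans (one_div_le_one_div_of_le (by positivity)
    (pow_le_pow_right₀ (by norm_num) hp))


/-! ### Finitely many windows -/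


/-- **The event at one window**, with all the objects. -/
def EvX {m J : ℕ} (F : Pool.KA.Fam m J) (c : ℕ → Fin m) (r D Dr w' v M : ℕ) (z : ℕ → ℕ)
    (e h p : ℕ) (R : ℕ → Prop) (g : ℕ → ℕ) (lv bt : ℕ → ℝ) (σ ε η κ : ℝ) (B : F.Ω → Prop) :
    Prop :=
  ∃ (gc gT g₀ : ℕ → ℕ) (G₀ : Pool.GEN.PtT F → ℕ → MvPolynomial (Option (Fin m)) ℝ)
    (H₀ : Pool.GEN.LnT F → ℕ → MvPolynomial (Option (Fin m)) ℝ)
    (T : Pool.GEN.PtT F → ℕ → MvPolynomial (Option (Fin m)) ℝ)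
    (TH : Pool.GEN.LnT F → ℕ → MvPolynomial (Option (Fin m)) ℝ)
    (Gt : Pool.GEN.PtT F → MvPolynomial (Option (Fin m)) ℝ)
    (Ht : Pool.GEN.LnT F → MvPolynomial (Option (Fin m)) ℝ), Pool.ISO.Sds r J v R lv bt σ ε η gc gT g₀ ∧
    Pool.W.ISO.EvS F c r D Dr w' v M z e h p R g gc gT g₀ κ B G₀ H₀ T TH Gt Ht


end Pool.W.ISO
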